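import Mathlib

/-!
Elementary symmetric sums of small non-negative weights.
-/

open Finset

namespace GPG

noncomputable section

/-- elementary symmetric sum -/
def es (k : ℕ) (A : Finset ℕ) (a : ℕ → ℝ) : ℝ := ∑ Y ∈ powersetCard k A, ∏ z ∈ Y, a z

theorem es_nonneg {k : ℕ} {A : Finset ℕ} {a : ℕ → ℝ} (ha : ∀ z ∈ A, 0 ≤ a z) : 0 ≤ es k A a := by
  unfold es
  refine sum_nonneg fun Y hY => prod_nonneg fun z hz => ha z ?_
  exact (mem_powersetCard.1 hY).1 hz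

theorem es_zero (A : Finset ℕ) (a : ℕ → ℝ) : es 0 A a = 1 := by
  simp [es]

theorem es_succ (k : ℕ) (A : Finset ℕ) (a : ℕ → ℝ) :
    ((k : ℝ) + 1) * es (k + 1) A a =
      ∑ Y ∈ powersetCard k A, (∏ z ∈ Y, a z) * ∑ z ∈ A \ Y, a z := by
  unfold es
  have h1 : ((k : ℝ) + 1) * ∑ Y ∈ powersetCard (k + 1) A, ∏ z ∈ Y, a z =
      ∑ Y ∈ powersetCard (k + 1) A, ∑ z ∈ Y, ∏ z ∈ Y, a z := by
    rw [mul_sum]
    refine sum_congr rfl fun Y hY => ?_
    rw [sum_const, (mem_powersetCard.1 hY).2, nsmul_eq_mul, Nat.cast_add, Nat.cast_one]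
  rw [h1]
  simp_rw [mul_sum]
  rw [sum_sigma', sum_sigma']
  refine sum_bij' (fun p _ => ⟨p.1.erase p.2, p.2⟩) (fun p _ => ⟨insert p.2 p.1, p.2⟩)
    ?_ ?_ ?_ ?_ ?_
  · rintro ⟨Y, z⟩ h
    simp only [mem_sigma, mem_powersetCard, mem_sdiff, mem_erase] at h ⊢
    obtain ⟨⟨h1, h2⟩, h3⟩ := h
    refine ⟨⟨(erase_subset _ _).trans h1, ?_⟩, h1 h3, by simp⟩
    rw [card_erase_of_mem h3, h2]
    rfl
  · rintro ⟨Y, z⟩ h
    simp only [mem_sigma, mem_powersetCard, mem_sdiff] at h ⊢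
    obtain ⟨⟨h1, h2⟩, h3, h4⟩ := h
    refine ⟨⟨insert_subset h3 h1, ?_⟩, mem_insert_self _ _⟩
    rw [card_insert_of_notMem h4, h2]
  · rintro ⟨Y, z⟩ h
    simp only [mem_sigma] at h
    simp only [Sigma.mk.injEq, heq_eq_eq, and_true]
    exact insert_erase h.2
  · rintro ⟨Y, z⟩ h
    simp only [mem_sigma, mem_sdiff] at h
    simp only [Sigma.mk.injEq, heq_eq_eq, and_true]
    exact erase_insert h.2.2
  · rintro ⟨Y, z⟩ h
    simp only [mem_sigma] at h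
    simp only
    rw [mul_comm, mul_prod_erase _ _ h.2]

theorem es_succ_le (k : ℕ) (A : Finset ℕ) (a : ℕ → ℝ) (ha : ∀ z ∈ A, 0 ≤ a z) :
    ((k : ℝ) + 1) * es (k + 1) A a ≤ es k A a * ∑ z ∈ A, a z := by
  rw [es_succ, es, sum_mul]
  refine sum_le_sum fun Y hY => ?_
  have hYA := (mem_powersetCard.1 hY).1
  refine mul_le_mul_of_nonneg_left ?_ (prod_nonneg fun z hz => ha z (hYA hz))
  exact sum_le_sum_of_subset_of_nonneg sdiff_subset fun z hz _ => ha z hz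

theorem le_es_succ (k : ℕ) (A : Finset ℕ) (a : ℕ → ℝ) (ha : ∀ z ∈ A, 0 ≤ a z) (p : ℝ)
    (hp : ∀ z ∈ A, a z ≤ p) :
    es k A a * (∑ z ∈ A, a z - k * p) ≤ ((k : ℝ) + 1) * es (k + 1) A a := by
  rw [es_succ, es, sum_mul]
  refine sum_le_sum fun Y hY => ?_
  have hYA := (mem_powersetCard.1 hY).1
  refine mul_le_mul_of_nonneg_left ?_ (prod_nonneg fun z hz => ha z (hYA hz))
  have h1 : ∑ z ∈ A \ Y, a z + ∑ z ∈ Y, a z = ∑ z ∈ A, a z := sum_sdiff hYA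
  have h2 : ∑ z ∈ Y, a z ≤ k * p := by
    have := sum_le_card_nsmul Y a p (fun z hz => hp z (hYA hz))
    rw [(mem_powersetCard.1 hY).2, nsmul_eq_mul] at this
    exact this
  linarith

/-- `k! e_k ≤ (∑ a)^k` -/
theorem fact_es_le (k : ℕ) (A : Finset ℕ) (a : ℕ → ℝ) (ha : ∀ z ∈ A, 0 ≤ a z) :
    (k.factorial : ℝ) * es k A a ≤ (∑ z ∈ A, a z) ^ k := by
  induction k with
  | zero => simp [es_zero]
  | succ k ih =>
    have h1 := es_succ_le k A a ha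
    have h2 : 0 ≤ ∑ z ∈ A, a z := sum_nonneg ha
    rw [Nat.factorial_succ, pow_succ]
    push_cast
    calc ((k : ℝ) + 1) * k.factorial * es (k + 1) A a
        = k.factorial * (((k : ℝ) + 1) * es (k + 1) A a) := by ring
      _ ≤ k.factorial * (es k A a * ∑ z ∈ A, a z) :=
          mul_le_mul_of_nonneg_left h1 (by positivity)
      _ = (k.factorial * es k A a) * ∑ z ∈ A, a z := by ring
      _ ≤ (∑ z ∈ A, a z) ^ k * ∑ z ∈ A, a z := mul_le_mul_of_nonneg_right ih h2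

theorem le_fact_es_aux (k : ℕ) (A : Finset ℕ) (a : ℕ → ℝ) (ha : ∀ z ∈ A, 0 ≤ a z) (p : ℝ)
    (hp0 : 0 ≤ p) (hp : ∀ z ∈ A, a z ≤ p) :
    (∑ z ∈ A, a z) ^ (k + 1) ≤ (k.factorial : ℝ) * es k A a * ∑ z ∈ A, a z +
      (k : ℝ) ^ 2 * p * (∑ z ∈ A, a z) ^ k := by
  set X := ∑ z ∈ A, a z with hX
  have h2 : 0 ≤ X := sum_nonneg ha
  induction k with
  | zero => simp [es_zero]
  | succ k ih =>
    have h1 := le_es_succ k A a ha p hp
    have h3 := fact_es_le k A a ha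
    have h4 : 0 ≤ es k A a := es_nonneg ha
    rw [← hX] at h1 h3
    have e1 : (((k + 1).factorial : ℕ) : ℝ) * es (k + 1) A a * X =
        k.factorial * (((k : ℝ) + 1) * es (k + 1) A a) * X := by
      rw [Nat.factorial_succ]; push_cast; ring
    have e2 : (k.factorial : ℝ) * (es k A a * (X - k * p)) * X ≤
        k.factorial * (((k : ℝ) + 1) * es (k + 1) A a) * X :=
      mul_le_mul_of_nonneg_right (mul_le_mul_of_nonneg_left h1 (by positivity)) h2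
    have e3 : X ^ (k + 1) * X ≤ ((k.factorial : ℝ) * es k A a * X + (k : ℝ) ^ 2 * p * X ^ k) * X :=
      mul_le_mul_of_nonneg_right ih h2
    have e4 : (k : ℝ) * p * (k.factorial * es k A a) * X ≤ (k : ℝ) * p * X ^ k * X :=
      mul_le_mul_of_nonneg_right (mul_le_mul_of_nonneg_left h3 (by positivity)) h2
    have e5 : 0 ≤ ((k : ℝ) + 1) * p * X ^ (k + 1) := by positivity
    have e6 : X ^ (k + 1 + 1) = X ^ (k + 1) * X := pow_succ _ _
    have e7 : X ^ (k + 1) = X ^ k * X := pow_succ _ _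
    rw [e1, e6]
    push_cast
    have e8 : ((k : ℝ) ^ 2 * p * X ^ k) * X = (k : ℝ) ^ 2 * p * X ^ (k + 1) := by rw [e7]; ring
    have e9 : (k : ℝ) * p * X ^ k * X = (k : ℝ) * p * X ^ (k + 1) := by rw [e7]; ring
    nlinarith [e2, e3, e4, e5, e8, e9]

/-- lower bound for `k! e_k` if the sum is large -/
theorem le_fact_es (k : ℕ) (A : Finset ℕ) (a : ℕ → ℝ) (ha : ∀ z ∈ A, 0 ≤ a z) (p κ : ℝ)
    (hp0 : 0 ≤ p) (hp : ∀ z ∈ A, a z ≤ p) (hκ : 0 < κ) (hkp : (k : ℝ) ^ 2 * p ≤ κ)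
    (hX : κ ≤ ∑ z ∈ A, a z) :
    κ ^ k * (1 - (k : ℝ) ^ 2 * p / κ) ≤ (k.factorial : ℝ) * es k A a := by
  have h := le_fact_es_aux k A a ha p hp0 hp
  set X := ∑ z ∈ A, a z with hX'
  have hXpos : 0 < X := lt_of_lt_of_le hκ hX
  have h1 : X ^ k * (1 - (k : ℝ) ^ 2 * p / X) ≤ (k.factorial : ℝ) * es k A a := by
    have e : X ^ k * (1 - (k : ℝ) ^ 2 * p / X) * X ≤ (k.factorial : ℝ) * es k A a * X := by
      have : X ^ k * (1 - (k : ℝ) ^ 2 * p / X) * X = X ^ (k + 1) - (k : ℝ) ^ 2 * p * X ^ k := by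
        field_simp
        ring
      rw [this]
      linarith
    exact le_of_mul_le_mul_right e hXpos
  refine le_trans ?_ h1
  have h2 : 0 ≤ 1 - (k : ℝ) ^ 2 * p / κ := by
    rw [sub_nonneg, div_le_one hκ]; exact hkp
  have h3 : (k : ℝ) ^ 2 * p / X ≤ (k : ℝ) ^ 2 * p / κ :=
    div_le_div_of_nonneg_left (by positivity) hκ hX
  exact mul_le_mul (pow_le_pow_left₀ hκ.le hX k) (by linarith) h2 (by positivity)

end

end GPG
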