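import Pool.Agent.Helper96.GP.Basics
import Pool.Agent.Helper86.GP.Esymm

open Finset
open scoped Classical

namespace GPG

noncomputable section

variable {L : LS} {P : Par} {pb : ℝ}

/-- the sets of `At` for a line of `pre` -/
theorem At_pre (v : ℕ) (i C : Finset ℕ) (hpre : L.pre i) :
    At L P v i C = ∑ z ∈ (i.filter (fun z => z < v)).filter (fun z => z < tau L P v C),
      pr L P C z / (run L P C z).On v z := by
  unfold At
  have : i.filter (fun z => z < tau L P v C ∧ L.Act C i z) =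
      (i.filter (fun z => z < v)).filter (fun z => z < tau L P v C) := by
    ext z
    simp only [mem_filter]
    constructor
    · rintro ⟨h1, h2, _⟩
      exact ⟨⟨h1, lt_of_lt_of_le h2 (tau_le v C)⟩, h2⟩
    · rintro ⟨⟨h1, _⟩, h2⟩
      exact ⟨h1, h2, Or.inl hpre⟩
  rw [this]

theorem powersetCard_filter_lt (k : ℕ) (A : Finset ℕ) (t : ℕ) (q : Finset ℕ → ℝ) :
    ∑ Y ∈ powersetCard k (A.filter (fun z => z < t)), q Y =
      ∑ Y ∈ powersetCard k A, if (∀ s ∈ Y, s < t) then q Y else 0 := by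
  rw [← sum_filter]
  refine sum_congr ?_ fun _ _ => rfl
  ext Y
  simp only [mem_powersetCard, mem_filter, subset_iff]
  constructor
  · rintro ⟨h1, h2⟩
    exact ⟨⟨fun x hx => (h1 hx).1, h2⟩, fun s hs => (h1 hs).2⟩
  · rintro ⟨⟨h1, h2⟩, h3⟩
    exact ⟨fun x hx => ⟨h1 hx, h3 x hx⟩, h2⟩

theorem q_bounds (hG : Good L P pb) (C : Finset ℕ) (v z : ℕ) :
    0 ≤ pr L P C z / (run L P C z).On v z ∧ pr L P C z / (run L P C z).On v z ≤ pb := by
  have h1 := On_one_le hG C z v z
  have h2 := pr_nonneg hG C z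
  have h3 := pr_le hG C z
  refine ⟨div_nonneg h2 (by linarith), ?_⟩
  exact (div_le_self h2 h1).trans h3

/-- block E1, with the product lemma as a hypothesis -/
theorem E1_of (hG : Good L P pb) (v : ℕ) (_hv : v < L.N) (i : Finset ℕ) (hi : i ∈ L.ls)
    (hvi : v ∈ i) (S0 : ℕ)
    (hPLU : ∀ X Y : Finset ℕ, Disjoint X Y → (∀ s ∈ X ∪ Y, s < v) →
      Ex L P v (fun C => if (∀ s ∈ X ∪ Y, s < tau L P v C) then
        (run L P C v).Z v * (∏ s ∈ X, (if s ∈ C then 1 else 0) / (run L P C s).On v s) *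
          ∏ s ∈ Y, pr L P C s / (run L P C s).On v s else 0) ≤
      (1 + P.e1) ^ ((X ∪ Y).card ^ 2) * (∏ q ∈ prs (X ∪ Y), bd L P S0 v q.1 q.2) *
        ∏ s ∈ X ∪ Y, P.lam s)
    (k : ℕ) (κ w : ℝ)
    (hpre : L.pre i)
    (hκ : 0 < κ) (hkp : (k : ℝ) ^ 2 * pb ≤ κ)
    (hw : ∑ z ∈ i.filter (fun z => z < v), P.lam z ≤ w) :
    Ex L P v (fun C => if κ ≤ At L P v i C then (run L P C v).Z v else 0) *
      (κ ^ k * (1 - (k : ℝ) ^ 2 * pb / κ)) ≤ (1 + P.e1) ^ (k ^ 2) * w ^ k := by
  have he1 := hG.e10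
  set A := i.filter (fun z => z < v) with hA
  set c := κ ^ k * (1 - (k : ℝ) ^ 2 * pb / κ) with hc
  have hc0 : 0 ≤ c := by
    have h2 : 0 ≤ 1 - (k : ℝ) ^ 2 * pb / κ := by
      rw [sub_nonneg, div_le_one hκ]; exact hkp
    positivity
  -- pointwise bound
  have step1 : Ex L P v (fun C => if κ ≤ At L P v i C then (run L P C v).Z v else 0) * c ≤
      Ex L P v (fun C => ∑ Y ∈ powersetCard k A, (k.factorial : ℝ) *
        (if (∀ s ∈ (∅ ∪ Y : Finset ℕ), s < tau L P v C) then
        (run L P C v).Z v * (∏ s ∈ (∅ : Finset ℕ), (if s ∈ C then 1 else 0) /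
          (run L P C s).On v s) *
          ∏ s ∈ Y, pr L P C s / (run L P C s).On v s else 0)) := by
    rw [mul_comm, ← Ex_const_mul]
    refine Ex_mono hG v _ _ fun C _ _ => ?_
    have hZ := Z_nonneg hG C v v
    have hq0 : ∀ z, 0 ≤ pr L P C z / (run L P C z).On v z := fun z => (q_bounds hG C v z).1
    have hqp : ∀ z, pr L P C z / (run L P C z).On v z ≤ pb := fun z => (q_bounds hG C v z).2
    have e : ∑ Y ∈ powersetCard k A, (k.factorial : ℝ) *
        (if (∀ s ∈ (∅ ∪ Y : Finset ℕ), s < tau L P v C) then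
        (run L P C v).Z v * (∏ s ∈ (∅ : Finset ℕ), (if s ∈ C then 1 else 0) /
          (run L P C s).On v s) *
          ∏ s ∈ Y, pr L P C s / (run L P C s).On v s else 0) =
        (run L P C v).Z v * ((k.factorial : ℝ) *
          es k (A.filter (fun z => z < tau L P v C))
            (fun z => pr L P C z / (run L P C z).On v z)) := by
      unfold es
      rw [powersetCard_filter_lt k A (tau L P v C), mul_sum, mul_sum]
      refine sum_congr rfl fun Y _ => ?_
      simp only [empty_union, prod_empty, mul_one]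
      split_ifs
      · ring
      · simp
    rw [e]
    split_ifs with hX
    · rw [mul_comm]
      refine mul_le_mul_of_nonneg_left ?_ hZ
      rw [At_pre v i C hpre] at hX
      exact le_fact_es k _ _ (fun z _ => hq0 z) pb κ hG.pb0 (fun z _ => hqp z) hκ hkp hX
    · rw [mul_zero]
      exact mul_nonneg hZ (mul_nonneg (by positivity) (es_nonneg fun z _ => hq0 z))
  refine step1.trans ?_
  rw [Ex_sum]
  have step2 : ∀ Y ∈ powersetCard k A, Ex L P v (fun C => (k.factorial : ℝ) *
        (if (∀ s ∈ (∅ ∪ Y : Finset ℕ), s < tau L P v C) then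
        (run L P C v).Z v * (∏ s ∈ (∅ : Finset ℕ), (if s ∈ C then 1 else 0) /
          (run L P C s).On v s) *
          ∏ s ∈ Y, pr L P C s / (run L P C s).On v s else 0)) ≤
      (1 + P.e1) ^ (k ^ 2) * ((k.factorial : ℝ) * ∏ s ∈ Y, P.lam s) := by
    intro Y hY
    obtain ⟨hYA, hYc⟩ := mem_powersetCard.1 hY
    rw [Ex_const_mul]
    have h := hPLU ∅ Y (disjoint_empty_left _) (by
      intro s hs
      rw [empty_union] at hs
      exact (mem_filter.1 (hYA hs)).2)
    have hbd : ∏ q ∈ prs (∅ ∪ Y), bd L P S0 v q.1 q.2 = 1 := by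
      refine prod_eq_one fun q hq => ?_
      rw [empty_union] at hq
      simp only [prs, mem_filter, mem_product] at hq
      obtain ⟨⟨h1, h2⟩, h3⟩ := hq
      unfold bd
      rw [if_neg]
      rintro ⟨j, hj, hsj, haj, hvj, _⟩
      have hsi := (mem_filter.1 (hYA h1)).1
      have hai := (mem_filter.1 (hYA h2)).1
      have := L.uniq i hi j hj q.1 q.2 h3.ne hsi hai hsj haj
      exact hvj (this ▸ hvi)
    rw [hbd, empty_union, hYc, mul_one] at h
    have h' := mul_le_mul_of_nonneg_left h (show (0 : ℝ) ≤ (k.factorial : ℝ) by positivity)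
    rw [empty_union]
    refine h'.trans (le_of_eq ?_)
    ring
  refine (sum_le_sum step2).trans ?_
  rw [← mul_sum, ← mul_sum]
  refine mul_le_mul_of_nonneg_left ?_ (by positivity)
  have hlam : ∀ z ∈ A, 0 ≤ P.lam z := fun z _ => hG.lam0 z
  have h3 := fact_es_le k A P.lam hlam
  unfold es at h3
  exact h3.trans (pow_le_pow_left₀ (sum_nonneg hlam) hw k)

end

end GPG
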