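import Mathlib

/-!
Rosenfeld's counting argument for 3-uniform hypergraphs.
-/

open Finset
open scoped Classical

namespace GPG

namespace Ros

noncomputable section

variable {α : Type*} [Fintype α] [DecidableEq α] {k : ℕ}

set_option linter.unusedSectionVars false

/-- `f` is proper on `S`. -/
def Pr (T : Finset (Finset α)) (S : Finset α) (f : α → Fin k) : Prop :=
  ∀ e ∈ T, e ⊆ S → ∃ x ∈ e, ∃ y ∈ e, f x ≠ f y

/-- number of the maps which are proper on `S` -/
def Nn (k : ℕ) (T : Finset (Finset α)) (S : Finset α) : ℕ :=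
  ((univ : Finset (α → Fin k)).filter (Pr T S)).card

theorem Pr_mono {T : Finset (Finset α)} {S S' : Finset α} (h : S' ⊆ S) {f : α → Fin k}
    (hf : Pr T S f) : Pr T S' f := fun e he hes => hf e he (hes.trans h)

theorem Pr_congr {T : Finset (Finset α)} {S : Finset α} {f g : α → Fin k}
    (h : ∀ x ∈ S, f x = g x) (hf : Pr T S f) : Pr T S g := by
  intro e he hes
  obtain ⟨x, hx, y, hy, hxy⟩ := hf e he hes
  exact ⟨x, hx, y, hy, by rw [← h x (hes hx), ← h y (hes hy)]; exact hxy⟩

theorem indep (T : Finset (Finset α)) (S : Finset α) (v x y : α) (hvx : v ≠ x) (hvy : v ≠ y)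
    (hxy : x ≠ y) (hx : x ∉ S) (hy : y ∉ S) :
    ((univ : Finset (α → Fin k)).filter (fun f => Pr T S f ∧ f x = f v ∧ f y = f v)).card *
      k ^ 2 ≤ Nn k T S := by
  have h1 : ((univ : Finset (α → Fin k)).filter
      (fun f => Pr T S f ∧ f x = f v ∧ f y = f v)).card * k ^ 2 =
      (((univ : Finset (α → Fin k)).filter (fun f => Pr T S f ∧ f x = f v ∧ f y = f v)) ×ˢ
        (univ : Finset (Fin k × Fin k))).card := by
    rw [card_product]
    simp [sq]
  rw [h1]
  refine card_le_card_of_injOn
    (fun p => Function.update (Function.update p.1 x p.2.1) y p.2.2) ?_ ?_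
  · rintro ⟨f, a, b⟩ hp
    have hp' := (mem_filter.1 (mem_product.1 (mem_coe.1 hp)).1).2
    refine mem_coe.2 (mem_filter.2 ⟨mem_univ _, ?_⟩)
    refine Pr_congr (fun z hz => ?_) hp'.1
    have hzx : z ≠ x := fun h => hx (h ▸ hz)
    have hzy : z ≠ y := fun h => hy (h ▸ hz)
    simp [hzx, hzy]
  · rintro ⟨f, a, b⟩ hp ⟨g, c, d⟩ hq he
    have hp' := (mem_filter.1 (mem_product.1 (mem_coe.1 hp)).1).2
    have hq' := (mem_filter.1 (mem_product.1 (mem_coe.1 hq)).1).2
    simp only at he hp' hq'
    have hv : f v = g v := by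
      have := congrFun he v
      simpa [hvx, hvy] using this
    have ha : a = c := by
      have := congrFun he x
      simpa [hxy] using this
    have hb : b = d := by
      have := congrFun he y
      simpa using this
    have hfg : f = g := by
      funext z
      by_cases hzx : z = x
      · rw [hzx, hp'.2.1, hq'.2.1, hv]
      by_cases hzy : z = y
      · rw [hzy, hp'.2.2, hq'.2.2, hv]
      have := congrFun he z
      simpa [hzx, hzy] using this
    rw [hfg, ha, hb]

theorem step (T : Finset (Finset α)) (hT : ∀ e ∈ T, e.card = 3) (D : ℕ) (hk : 0 < k)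
    (hD : ∀ w, (T.filter (fun e => w ∈ e)).card ≤ D) (hDk : 8 * D ≤ k ^ 2) (n : ℕ) :
    ∀ S : Finset α, S.card = n → ∀ v, v ∉ S → Nn k T S ≤ 2 * Nn k T (insert v S) := by
  induction n using Nat.strong_induction_on with
  | _ n ih =>
    intro S hS v hv
    set E := T.filter (fun e => v ∈ e ∧ e ⊆ insert v S) with hE
    -- the bad maps
    set B : Finset α → Finset (α → Fin k) := fun e =>
      univ.filter (fun f => Pr T S f ∧ ∀ x ∈ e, ∀ y ∈ e, f x = f y) with hB
    have h1 : (univ : Finset (α → Fin k)).filter (Pr T S) ⊆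
        (univ : Finset (α → Fin k)).filter (Pr T (insert v S)) ∪ E.biUnion B := by
      intro f hf
      have hf' := (mem_filter.1 hf).2
      by_cases h : Pr T (insert v S) f
      · exact mem_union_left _ (mem_filter.2 ⟨mem_univ _, h⟩)
      · refine mem_union_right _ ?_
        unfold Pr at h
        push Not at h
        obtain ⟨e, he, hes, hm⟩ := h
        have hve : v ∈ e := by
          by_contra hve
          obtain ⟨x, hx, y, hy, hxy⟩ := hf' e he ((subset_insert_iff_of_notMem hve).1 hes)
          exact hxy (hm x hx y hy)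
        exact mem_biUnion.2 ⟨e, mem_filter.2 ⟨he, hve, hes⟩, mem_filter.2 ⟨mem_univ _, hf', hm⟩⟩
    have h2 : ∀ e ∈ E, (B e).card * k ^ 2 ≤ 4 * Nn k T S := by
      intro e he
      obtain ⟨heT, hve, hes⟩ := mem_filter.1 he
      have hc : (e.erase v).card = 2 := by
        rw [card_erase_of_mem hve, hT e heT]
      obtain ⟨x, y, hxy, hexy⟩ := card_eq_two.1 hc
      have hxe : x ∈ e.erase v := by rw [hexy]; simp
      have hye : y ∈ e.erase v := by rw [hexy]; simp
      have hvx : v ≠ x := (ne_of_mem_erase hxe).symm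
      have hvy : v ≠ y := (ne_of_mem_erase hye).symm
      have hxS : x ∈ S := mem_of_mem_insert_of_ne (hes (mem_of_mem_erase hxe)) hvx.symm
      have hyS : y ∈ S := mem_of_mem_insert_of_ne (hes (mem_of_mem_erase hye)) hvy.symm
      have hyS' : y ∈ S.erase x := mem_erase.2 ⟨hxy.symm, hyS⟩
      set S' := (S.erase x).erase y with hS'
      have hxS' : x ∉ S' := fun h => by
        have := mem_of_mem_erase h
        exact absurd rfl (ne_of_mem_erase this)
      have hyS'' : y ∉ S' := fun h => absurd rfl (ne_of_mem_erase h)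
      have i0 := indep (k := k) T S' v x y hvx hvy hxy hxS' hyS''
      have i1 : (B e).card ≤ ((univ : Finset (α → Fin k)).filter
          (fun f => Pr T S' f ∧ f x = f v ∧ f y = f v)).card := by
        refine card_le_card fun f hf => ?_
        have hf' := (mem_filter.1 hf).2
        refine mem_filter.2 ⟨mem_univ _, Pr_mono ((erase_subset _ _).trans (erase_subset _ _)) hf'.1,
          hf'.2 x (mem_of_mem_erase hxe) v hve, hf'.2 y (mem_of_mem_erase hye) v hve⟩
      have c1 : (S.erase x).card = S.card - 1 := card_erase_of_mem hxS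
      have c2 : S'.card = S.card - 2 := by
        rw [hS', card_erase_of_mem hyS', c1]; rfl
      have c0 : 0 < S.card := card_pos.2 ⟨x, hxS⟩
      have c0' : 0 < (S.erase x).card := card_pos.2 ⟨y, hyS'⟩
      have j1 := ih (S.card - 1) (by omega) (S.erase x) c1 x (notMem_erase x S)
      rw [insert_erase hxS] at j1
      have j2 := ih (S.card - 2) (by omega) S' c2 y (notMem_erase y _)
      rw [hS', insert_erase hyS'] at j2
      rw [← hS'] at j2
      calc (B e).card * k ^ 2 ≤ _ := Nat.mul_le_mul_right _ i1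
        _ ≤ _ := i0
        _ ≤ 4 * Nn k T S := by omega
    have h3 : Nn k T S ≤ Nn k T (insert v S) + ∑ e ∈ E, (B e).card := by
      unfold Nn
      exact (card_le_card h1).trans ((card_union_le _ _).trans
        (Nat.add_le_add_left card_biUnion_le _))
    have h4 : (∑ e ∈ E, (B e).card) * k ^ 2 ≤ D * (4 * Nn k T S) := by
      rw [sum_mul]
      calc ∑ e ∈ E, (B e).card * k ^ 2 ≤ ∑ e ∈ E, 4 * Nn k T S := sum_le_sum h2
        _ = E.card * (4 * Nn k T S) := by rw [sum_const, smul_eq_mul]
        _ ≤ D * (4 * Nn k T S) := by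
          refine Nat.mul_le_mul_right _ (le_trans (card_le_card ?_) (hD v))
          intro e he
          obtain ⟨a, b, _⟩ := mem_filter.1 he
          exact mem_filter.2 ⟨a, b⟩
    have h5 : 2 * (∑ e ∈ E, (B e).card) ≤ Nn k T S := by
      have hk2 : 0 < k ^ 2 := by positivity
      have : (2 * (∑ e ∈ E, (B e).card)) * k ^ 2 ≤ Nn k T S * k ^ 2 := by
        calc (2 * (∑ e ∈ E, (B e).card)) * k ^ 2 = 2 * ((∑ e ∈ E, (B e).card) * k ^ 2) := by ring
          _ ≤ 2 * (D * (4 * Nn k T S)) := Nat.mul_le_mul_left _ h4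
          _ = (8 * D) * Nn k T S := by ring
          _ ≤ k ^ 2 * Nn k T S := Nat.mul_le_mul_right _ hDk
          _ = Nn k T S * k ^ 2 := by ring
      exact Nat.le_of_mul_le_mul_right this hk2
    omega

theorem exists_proper (T : Finset (Finset α)) (hT : ∀ e ∈ T, e.card = 3) (D : ℕ) (hk : 0 < k)
    (hD : ∀ w, (T.filter (fun e => w ∈ e)).card ≤ D) (hDk : 8 * D ≤ k ^ 2) :
    ∃ f : α → Fin k, Pr T univ f := by
  have h : ∀ S : Finset α, 0 < Nn k T S := by
    intro S
    induction S using Finset.induction_on with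
    | empty =>
      unfold Nn
      refine card_pos.2 ⟨fun _ => ⟨0, hk⟩, mem_filter.2 ⟨mem_univ _, ?_⟩⟩
      intro e he hes
      have := hT e he
      rw [subset_empty.1 hes] at this
      simp at this
    | insert v S hv ih =>
      have := step T hT D hk hD hDk S.card S rfl v hv
      omega
  obtain ⟨f, hf⟩ := card_pos.1 (h univ)
  exact ⟨f, (mem_filter.1 hf).2⟩

end

end Ros

theorem rosenfeld {α : Type*} [DecidableEq α] (V : Finset α) (T : Finset (Finset α))
    (hT : ∀ e ∈ T, e.card = 3) (D k : ℕ) (hk : 0 < k)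
    (hD : ∀ w ∈ V, (T.filter (fun e => w ∈ e ∧ e ⊆ V)).card ≤ D) (hDk : 8 * D ≤ k ^ 2) :
    ∃ f : α → ℕ, (∀ v, f v < k) ∧ ∀ e ∈ T, e ⊆ V → ∃ x ∈ e, ∃ y ∈ e, f x ≠ f y := by
  classical
  set T' : Finset (Finset {x // x ∈ V}) :=
    univ.filter (fun e => e.map (Function.Embedding.subtype _) ∈ T) with hT'
  obtain ⟨g, hg⟩ := Ros.exists_proper (k := k) T' (by
      intro e he
      have := hT _ (mem_filter.1 he).2
      rwa [card_map] at this) D hk (by
      intro w
      refine le_trans ?_ (hD w.1 w.2)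
      refine card_le_card_of_injOn (fun e => e.map (Function.Embedding.subtype _)) ?_ ?_
      · intro e he
        obtain ⟨h1, h2⟩ := mem_filter.1 (mem_coe.1 he)
        refine mem_coe.2 (mem_filter.2 ⟨(mem_filter.1 h1).2, mem_map.2 ⟨w, h2, rfl⟩, ?_⟩)
        intro x hx
        obtain ⟨y, _, rfl⟩ := mem_map.1 hx
        exact y.2
      · intro e _ e' _ h
        exact map_injective _ h) hDk
  refine ⟨fun v => if h : v ∈ V then (g ⟨v, h⟩ : ℕ) else 0, ?_, ?_⟩
  · intro v
    by_cases h : v ∈ V
    · simp only [h, dif_pos]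
      exact (g ⟨v, h⟩).2
    · simp only [h, not_false_eq_true, dif_neg]
      exact hk
  · intro e he heV
    have hmem : (e.subtype (fun x => x ∈ V)) ∈ T' := by
      refine mem_filter.2 ⟨mem_univ _, ?_⟩
      rw [subtype_map_of_mem (fun x hx => heV hx)]
      exact he
    obtain ⟨x, hx, y, hy, hxy⟩ := hg _ hmem (subset_univ _)
    refine ⟨x.1, mem_subtype.1 hx, y.1, mem_subtype.1 hy, ?_⟩
    simp only [x.2, y.2, dif_pos, Subtype.coe_eta]
    exact fun h => hxy (Fin.ext h)

end GPG
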